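import Pool.Agent.helper4.EC.Spec

set_option autoImplicit false

namespace Pool.Agent.helper4.EC

open Finset

universe u

theorem SA : SA_stmt.{u} := by
  intro V _ G X Y
  constructor
  · rintro ⟨-, x, hx, y, hy, hxy, hY⟩
    refine ⟨x, y, ⟨hx, fun h => X.2.1.1 x hx y h hxy, hxy, ?_⟩, hY⟩
    rw [← hY]
    exact Y.2
  · rintro ⟨x, y, ⟨hx, hy, hxy, -⟩, hY⟩
    have hyY : y ∈ Y.1 := by
      rw [hY]
      exact mem_insert_self _ _
    refine ⟨?_, x, hx, y, hyY, hxy, hY⟩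
    rintro rfl
    exact hy hyY

end Pool.Agent.helper4.EC
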