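import Pool.Agent.helper26.EC.SpecW

set_option autoImplicit false

namespace Pool.Agent.EC

open Finset ArithmeticFunction
open Pool.Agent.CH (Win)

/-- the large prime factors -/
noncomputable def TSB_S (N m : ℕ) : Finset ℕ :=
  by
    classical exact m.primeFactors.filter fun p : ℕ => (N : ℝ) ^ (90 / 962 : ℝ) ≤ (p : ℝ)

theorem TSB_card (N m : ℕ) (hN : 2 ≤ N) (hm : m ≤ 8 * N ^ 3) : #(TSB_S N m) ≤ 64 := by
  classical
  rcases Nat.eq_zero_or_pos m with h0 | h0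
  · subst h0
    simp [TSB_S]
  have hNr : (2 : ℝ) ≤ (N : ℝ) := by exact_mod_cast hN
  have hN0 : (0 : ℝ) ≤ (N : ℝ) := by linarith
  have hN1 : (1 : ℝ) < (N : ℝ) := by linarith
  have h1 : ∏ p ∈ TSB_S N m, p ≤ m := by
    have h2 : ∏ p ∈ TSB_S N m, p ∣ ∏ p ∈ m.primeFactors, p :=
      Finset.prod_dvd_prod_of_subset _ _ _ (Finset.filter_subset _ _)
    exact Nat.le_of_dvd h0 (h2.trans (Nat.prod_primeFactors_dvd m))
  have h3 : ((N : ℝ) ^ (90 / 962 : ℝ)) ^ #(TSB_S N m) ≤ ∏ p ∈ TSB_S N m, (p : ℝ) := by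
    rw [← Finset.prod_const]
    apply Finset.prod_le_prod
    · intro p _
      exact Real.rpow_nonneg hN0 _
    · intro p hp
      unfold TSB_S at hp
      rw [Finset.mem_filter] at hp
      exact hp.2
  have h4 : ∏ p ∈ TSB_S N m, (p : ℝ) ≤ (N : ℝ) ^ (6 : ℝ) := by
    have e1 : ∏ p ∈ TSB_S N m, (p : ℝ) = ((∏ p ∈ TSB_S N m, p : ℕ) : ℝ) := by push_cast; rfl
    rw [e1]
    have e2 : ((∏ p ∈ TSB_S N m, p : ℕ) : ℝ) ≤ ((8 * N ^ 3 : ℕ) : ℝ) := by
      exact_mod_cast h1.trans hm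
    refine e2.trans ?_
    have e3 : (N : ℝ) ^ (6 : ℝ) = (N : ℝ) ^ 6 := by
      rw [← Real.rpow_natCast]
      norm_num
    rw [e3]
    push_cast
    have e4 : (8 : ℝ) ≤ (N : ℝ) ^ 3 := by
      calc (8 : ℝ) = 2 ^ 3 := by norm_num
        _ ≤ (N : ℝ) ^ 3 := pow_le_pow_left₀ (by norm_num) hNr 3
    calc 8 * (N : ℝ) ^ 3 ≤ (N : ℝ) ^ 3 * (N : ℝ) ^ 3 :=
          mul_le_mul_of_nonneg_right e4 (by positivity)
      _ = (N : ℝ) ^ 6 := by ring
  have h5 := h3.trans h4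
  rw [← Real.rpow_natCast, ← Real.rpow_mul hN0, Real.rpow_le_rpow_left_iff hN1] at h5
  have h6 : (#(TSB_S N m) : ℝ) < 65 := by linarith
  have h7 : #(TSB_S N m) < 65 := by exact_mod_cast h6
  omega

theorem TSB_TL0 {r : ℕ} (N m : ℕ) (a b : Fin r → ℝ) : 0 ≤ TL N a b m := by
  unfold TL
  apply Finset.sum_nonneg
  intro p _
  exact vonMangoldt_nonneg

theorem TSB_TL {r : ℕ} (N m : ℕ) (a b : Fin r → ℝ) (hN : 2 ≤ N) (hm : m ≤ 8 * N ^ 3)
    (ha : ∀ i, (90 / 962 : ℝ) ≤ a i) : TL N a b m ≤ 64 ^ r * (6 * Real.log N) := by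
  classical
  have hNr : (2 : ℝ) ≤ (N : ℝ) := by exact_mod_cast hN
  have hN1 : (1 : ℝ) ≤ (N : ℝ) := by linarith
  have hlog : 0 ≤ Real.log N := Real.log_nonneg hN1
  unfold TL
  have hL : ∀ p ∈ (Fintype.piFinset fun _ : Fin r => m.primeFactors).filter fun p =>
      (∀ i, (N : ℝ) ^ a i ≤ (p i : ℝ) ∧ (p i : ℝ) < (N : ℝ) ^ b i) ∧ ∏ i, p i ∣ m,
      vonMangoldt (m / ∏ i, p i) ≤ 6 * Real.log N := by
    intro p _
    refine vonMangoldt_le_log.trans ?_
    have h1 : m / ∏ i, p i ≤ N ^ 6 := by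
      refine (Nat.div_le_self _ _).trans (hm.trans ?_)
      have e4 : 8 ≤ N ^ 3 := by
        calc 8 = 2 ^ 3 := by norm_num
          _ ≤ N ^ 3 := Nat.pow_le_pow_left hN 3
      calc 8 * N ^ 3 ≤ N ^ 3 * N ^ 3 := Nat.mul_le_mul_right _ e4
        _ = N ^ 6 := by ring
    rcases Nat.eq_zero_or_pos (m / ∏ i, p i) with h0 | h0
    · rw [h0]
      simp only [Nat.cast_zero, Real.log_zero]
      positivity
    · have h2 : Real.log ((m / ∏ i, p i : ℕ) : ℝ) ≤ Real.log ((N ^ 6 : ℕ) : ℝ) := by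
        apply Real.log_le_log
        · exact_mod_cast h0
        · exact_mod_cast h1
      refine h2.trans (le_of_eq ?_)
      push_cast
      rw [Real.log_pow]
      norm_num
  refine (Finset.sum_le_card_nsmul _ _ _ hL).trans ?_
  rw [nsmul_eq_mul]
  apply mul_le_mul_of_nonneg_right _ (by positivity)
  have hsub : ((Fintype.piFinset fun _ : Fin r => m.primeFactors).filter fun p =>
      (∀ i, (N : ℝ) ^ a i ≤ (p i : ℝ) ∧ (p i : ℝ) < (N : ℝ) ^ b i) ∧ ∏ i, p i ∣ m) ⊆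
      Fintype.piFinset fun _ : Fin r => TSB_S N m := by
    intro p hp
    rw [Finset.mem_filter, Fintype.mem_piFinset] at hp
    rw [Fintype.mem_piFinset]
    intro i
    unfold TSB_S
    rw [Finset.mem_filter]
    refine ⟨hp.1 i, ?_⟩
    exact (Real.rpow_le_rpow_of_exponent_le hN1 (ha i)).trans (hp.2.1 i).1
  have hc := Finset.card_le_card hsub
  rw [Fintype.card_piFinset, Finset.prod_const, Finset.card_univ, Fintype.card_fin] at hc
  have hc2 := hc.trans (Nat.pow_le_pow_left (TSB_card N m hN hm) r)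
  exact_mod_cast hc2

theorem TSB_JJ {b : Bool} {r : ℕ} {j : Fin r → ℕ} (h : j ∈ JJ b r) :
    (∀ i, 30 ≤ j i) ∧ ∑ i, j i ≤ 861 := by
  unfold JJ at h
  rw [Finset.mem_filter, Fintype.mem_piFinset] at h
  refine ⟨?_, h.2⟩
  intro i
  have h1 := h.1 i
  split_ifs at h1
  · rw [Finset.mem_Ico] at h1
    exact h1.1
  · rw [Finset.mem_Ico] at h1
    omega

theorem TSB_om (b : Bool) (r σ : ℕ) : 0 ≤ om b r σ := by
  unfold om
  split_ifs <;> positivity

theorem TSB_ph (r σ : ℕ) (hr : r ≤ 9) (hσ : σ ≤ 861) : 0 ≤ ph r σ := by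
  unfold ph
  have h1 : (r : ℝ) ≤ 9 := by exact_mod_cast hr
  have h2 : (σ : ℝ) ≤ 861 := by exact_mod_cast hσ
  apply div_nonneg (by norm_num)
  linarith

theorem TSB : TSB_stmt := by
  set C0 : ℝ := ∑ b : Bool, ∑ r ∈ Icc 4 9, ∑ j ∈ JJ b r,
    om b r (∑ i, j i) * ph r (∑ i, j i) * (2 * 64 ^ r) with hC0
  have hC0n : 0 ≤ C0 := by
    apply Finset.sum_nonneg
    intro b _
    apply Finset.sum_nonneg
    intro r hr
    apply Finset.sum_nonneg
    intro j hj
    rw [Finset.mem_Icc] at hr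
    exact mul_nonneg (mul_nonneg (TSB_om _ _ _) (TSB_ph _ _ hr.2 (TSB_JJ hj).2)) (by positivity)
  refine ⟨C0 + 1, by linarith, ?_⟩
  intro N hN m
  have hNr : (2 : ℝ) ≤ (N : ℝ) := by exact_mod_cast hN
  have hlog : 0 < Real.log N := Real.log_pos (by linarith)
  constructor
  · unfold TS
    apply Finset.sum_nonneg
    intro b _
    apply Finset.sum_nonneg
    intro r hr
    apply Finset.sum_nonneg
    intro j hj
    rw [Finset.mem_Icc] at hr
    apply mul_nonneg _ (TSB_TL0 _ _ _ _)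
    apply div_nonneg _ (by positivity)
    exact mul_nonneg (TSB_om _ _ _) (TSB_ph _ _ hr.2 (TSB_JJ hj).2)
  · intro hm
    have key : TS N m ≤ C0 := by
      unfold TS
      rw [hC0]
      apply Finset.sum_le_sum
      intro b _
      apply Finset.sum_le_sum
      intro r hr
      apply Finset.sum_le_sum
      intro j hj
      rw [Finset.mem_Icc] at hr
      have hc : 0 ≤ om b r (∑ i, j i) * ph r (∑ i, j i) :=
        mul_nonneg (TSB_om _ _ _) (TSB_ph _ _ hr.2 (TSB_JJ hj).2)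
      have hT := TSB_TL N m (aJ j) (bJ j) hN hm (by
        intro i
        unfold aJ
        have h30 : (30 : ℝ) ≤ (j i : ℝ) := by exact_mod_cast (TSB_JJ hj).1 i
        linarith)
      calc om b r (∑ i, j i) * ph r (∑ i, j i) / (3 * Real.log N) * TL N (aJ j) (bJ j) m
          ≤ om b r (∑ i, j i) * ph r (∑ i, j i) / (3 * Real.log N) * (64 ^ r * (6 * Real.log N)) :=
            mul_le_mul_of_nonneg_left hT (div_nonneg hc (by positivity))
        _ = om b r (∑ i, j i) * ph r (∑ i, j i) * (2 * 64 ^ r) := by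
            field_simp
            ring
    linarith

end Pool.Agent.EC
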