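import Pool.Agent.helper26.EC.SpecE
import Pool.Agent.helper77.EC.EXV

set_option autoImplicit false

namespace Pool.Agent.EC

open Finset ArithmeticFunction
open Pool.Agent.CH (Win rgh dl eU Mo ClP ClB)
open Pool.Agent.CHS (PB WUp)

theorem MTE : MTE_stmt := by
  intro P g ξ
  rw [EXV_id]
  unfold Eg EXV_w
  rfl

end Pool.Agent.EC
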